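import Pool.Agent.Walk26.Exact

/-!
# MP_b774a0_co: pseudolines with a level of complexity `c * n ^ 1.2702`
-/

namespace Pool.Agent.Results.MP_b774a0_co.Pseudolines

open LevelLower LevelPseudo

/-- Let `γ = log 26 / log 13 = 1.2702...`. There is `c > 0` such that for all large `n` there are
`n` pseudolines (graphs of continuous functions on the whole line, every two with exactly one
common point, where they cross) and a level of their arrangement with at least `c * n ^ γ`
vertices. Hence the maximum complexity of a level for `n` x-monotone arcs, every two with at most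
`s` common points, is at least `c * n ^ γ` for every `s ≥ 1` (the same `c` for all `s`). -/
theorem result : ∃ c : ℝ, 0 < c ∧ ∃ n₀ : ℕ, ∀ n ≥ n₀,
    (∃ f : Fin n → ℝ → ℝ, (∀ i, Continuous (f i)) ∧
      (∀ i j, i ≠ j → ∃ x, Crosses (f i) (f j) x) ∧
      ∃ k < n, c * (n : ℝ) ^ (Real.log 26 / Real.log 13) ≤ psiT f k) ∧
    ∀ s ≥ 1, c * (n : ℝ) ^ (Real.log 26 / Real.log 13) ≤ Psi s n :=
  Walk26.main_exact

end Pool.Agent.Results.MP_b774a0_co.Pseudolines
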