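import Pool.Agent.LevelPseudo.Final

/-!
# MP_b774a0_co: the exponent of the complexity of a level is `2 - Θ(1 / s)`
-/

namespace Pool.Agent.Results.MP_b774a0_co.Rate

open LevelLower LevelPseudo

/-- For every fixed `s ≥ 15` and all large `n` the maximum complexity of a level is at least
`n ^ (2 - 37 / (s + 10))`, both for `n` graphs of continuous functions on the whole line and for
`n` x-monotone Jordan arcs, every two with at most `s` common points. -/
theorem result (s : ℕ) (hs : 15 ≤ s) : ∃ n₀ : ℕ, ∀ n ≥ n₀,
    (n : ℝ) ^ (2 - 37 / ((s : ℝ) + 10)) ≤ PsiT s n ∧ PsiT s n ≤ Psi s n :=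
  main_rateT s hs

end Pool.Agent.Results.MP_b774a0_co.Rate
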