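import Pool.Agent.LevelRow.Final

/-!
# MP_b774a0_co: levels of exponent `log (a b) / log λ` for `s = 2 b - 1`
-/

namespace Pool.Agent.Results.MP_b774a0_co.RowMajor

open LevelLower LevelPseudo LevelRow

/-- Let `a, b ≥ 2` and `s ≥ 2 b - 1`. The maximum complexity of a level is at least `c * n ^ γ` for
all large `n`, where `γ = log (a b) / log λ` and
`λ = grow a b = ((a + 2 b - 1) + √((a - 2 b + 1) ^ 2 + 8 (a - 1))) / 2`, both for `n` graphs of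
continuous functions on the whole line and for `n` x-monotone Jordan arcs, every two with at most
`s` common points. In particular the exponent is more than `4 / 3` for `s ≥ 5` and more than
`3 / 2` for `s ≥ 11`. -/
theorem result :
    (∀ a b s : ℕ, 2 ≤ a → 2 ≤ b → 2 * b - 1 ≤ s →
      ∃ c : ℝ, 0 < c ∧ ∃ n₀ : ℕ, ∀ n ≥ n₀,
        c * (n : ℝ) ^ (Real.log ((a * b : ℕ) : ℝ) / Real.log (grow a b)) ≤ PsiT s n ∧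
          PsiT s n ≤ Psi s n) ∧
    (∀ s ≥ 5, ∃ n₀ : ℕ, ∀ n ≥ n₀, (n : ℝ) ^ (1.35 : ℝ) ≤ PsiT s n ∧ PsiT s n ≤ Psi s n) ∧
    (∀ s ≥ 7, ∃ n₀ : ℕ, ∀ n ≥ n₀, (n : ℝ) ^ (1.438 : ℝ) ≤ PsiT s n ∧ PsiT s n ≤ Psi s n) ∧
    (∀ s ≥ 9, ∃ n₀ : ℕ, ∀ n ≥ n₀, (n : ℝ) ^ (1.496 : ℝ) ≤ PsiT s n ∧ PsiT s n ≤ Psi s n) ∧
    (∀ s ≥ 11, ∃ n₀ : ℕ, ∀ n ≥ n₀, (n : ℝ) ^ (1.538 : ℝ) ≤ PsiT s n ∧ PsiT s n ≤ Psi s n) ∧
    (∀ s ≥ 15, ∃ n₀ : ℕ, ∀ n ≥ n₀, (n : ℝ) ^ (1.595 : ℝ) ≤ PsiT s n ∧ PsiT s n ≤ Psi s n) :=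
  ⟨main, five, seven, nine, eleven, fifteen⟩

end Pool.Agent.Results.MP_b774a0_co.RowMajor
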