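import Pool.Agent.LUB2.FinalE

/-!
# MP_b774a0_co: an upper bound for levels, for every `s ≥ 3`
-/

namespace Pool.Agent.Results.MP_b774a0_co.Upper

open LevelLower

/-- Every level in an arrangement of `n ≥ 1` x-monotone Jordan arcs, every two with at most `s`
common points, has at most `C * n ^ (2 - 1 / (2 * s - 1))` vertices for odd `s ≥ 3` (`C` depends on
`s`), and at most `C * n ^ (2 - 1 / (2 * s - 3) + ε)` vertices for even `s ≥ 4` and every `ε > 0`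
(`C` depends on `s` and `ε`). -/
theorem result :
    (∀ s : ℕ, Odd s → 3 ≤ s → ∃ C : ℝ, ∀ n : ℕ, 1 ≤ n →
      (∀ Γ : Fin n → XArc, Intersecting s Γ → ∀ k,
        (psi Γ k : ℝ) ≤ C * (n : ℝ) ^ (2 - 1 / (2 * (s : ℝ) - 1))) ∧
      (Psi s n : ℝ) ≤ C * (n : ℝ) ^ (2 - 1 / (2 * (s : ℝ) - 1))) ∧
    (∀ s : ℕ, Even s → 4 ≤ s → ∀ ε : ℝ, 0 < ε → ∃ C : ℝ, ∀ n : ℕ, 1 ≤ n →
      (∀ Γ : Fin n → XArc, Intersecting s Γ → ∀ k,
        (psi Γ k : ℝ) ≤ C * (n : ℝ) ^ (2 - 1 / (2 * (s : ℝ) - 3) + ε)) ∧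
      (Psi s n : ℝ) ≤ C * (n : ℝ) ^ (2 - 1 / (2 * (s : ℝ) - 3) + ε)) :=
  ⟨fun s hs h3 => LUB.main_psi s hs h3, fun s hs h4 ε hε => LUB.main_even s hs h4 ε hε⟩

end Pool.Agent.Results.MP_b774a0_co.Upper
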